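import Pool.Agent.TH90.BB.Defs

/-!
# Correspondences preserve the classes with orthogonal lifts
-/

universe u v w

namespace Pool.Agent.TH90.BB

namespace ArithData

variable {D : ArithData.{u, v, w}}

lemma mem_ch0 {X : D.Model} {i : ℤ} {z : D.Ch X} :
    z ∈ D.ch0 X i ↔ z ∈ D.codim X i ∧ D.res X z ∈ D.hom X := Iff.rfl

lemma mem_fin {X : D.Model} {i : ℤ} {z : D.Ch X} :
    z ∈ D.fin X i ↔ z ∈ D.codim X i ∧ D.res X z = 0 := Iff.rfl

lemma Perp.zero (h : D.Formal) (X : D.Model) (i : ℤ) : D.Perp X i 0 := by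
  refine ⟨Submodule.zero_mem _, fun w hw => ?_⟩
  have h1 := h.linear.smul X i 0 0 (Submodule.zero_mem _) w hw
  simpa using h1

lemma Perp.add (h : D.Formal) {X : D.Model} {i : ℤ} {z z' : D.Ch X} (hz : D.Perp X i z)
    (hz' : D.Perp X i z') : D.Perp X i (z + z') := by
  refine ⟨Submodule.add_mem _ hz.1 hz'.1, fun w hw => ?_⟩
  rw [h.linear.add X i z hz.1 z' hz'.1 w hw, hz.2 w hw, hz'.2 w hw, add_zero]

lemma Perp.smul (h : D.Formal) {X : D.Model} {i : ℤ} {z : D.Ch X} (q : ℚ) (hz : D.Perp X i z) :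
    D.Perp X i (q • z) := by
  refine ⟨Submodule.smul_mem _ q hz.1, fun w hw => ?_⟩
  rw [h.linear.smul X i q z hz.1 w hw, hz.2 w hw, mul_zero]

lemma ch0_pull (h : D.Formal) {X Y : D.Model} (f : D.Mor Y X) {i : ℤ} {z : D.Ch X}
    (hz : z ∈ D.ch0 X i) : D.pull f z ∈ D.ch0 Y i := by
  rw [mem_ch0] at *
  refine ⟨h.graded.pull X Y f i z hz.1, ?_⟩
  rw [h.compatible.pull]
  exact h.compatible.pull_hom X Y f _ hz.2

lemma ch0_push (h : D.Formal) {X Y : D.Model} (f : D.Mor Y X) {i : ℤ} {z : D.Ch Y}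
    (hz : z ∈ D.ch0 Y i) : D.push f z ∈ D.ch0 X (i + D.dim X - D.dim Y) := by
  rw [mem_ch0] at *
  refine ⟨h.graded.push X Y f i z hz.1, ?_⟩
  rw [h.compatible.push]
  exact h.compatible.push_hom X Y f _ hz.2

lemma fin_pull (h : D.Formal) {X Y : D.Model} (f : D.Mor Y X) {i : ℤ} {z : D.Ch X}
    (hz : z ∈ D.fin X i) : D.pull f z ∈ D.fin Y i := by
  rw [mem_fin] at *
  refine ⟨h.graded.pull X Y f i z hz.1, ?_⟩
  rw [h.compatible.pull, hz.2, map_zero]

lemma fin_push (h : D.Formal) {X Y : D.Model} (f : D.Mor Y X) {i : ℤ} {z : D.Ch Y}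
    (hz : z ∈ D.fin Y i) : D.push f z ∈ D.fin X (i + D.dim X - D.dim Y) := by
  rw [mem_fin] at *
  refine ⟨h.graded.push X Y f i z hz.1, ?_⟩
  rw [h.compatible.push, hz.2, map_zero]

lemma Perp.pull (h : D.Formal) {X Y : D.Model} (f : D.Mor Y X) {i : ℤ} {z : D.Ch X}
    (hz : D.Perp X i z) : D.Perp Y i (D.pull f z) := by
  refine ⟨ch0_pull h f hz.1, fun w hw => ?_⟩
  rw [h.projection.pull X Y f i z hz.1 w hw]
  apply hz.2
  have h1 := fin_push h f hw
  have h2 : D.dim Y + 1 - i + D.dim X - D.dim Y = D.dim X + 1 - i := by ring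
  rwa [h2] at h1

lemma Perp.push (h : D.Formal) {X Y : D.Model} (f : D.Mor Y X) {i : ℤ} {z : D.Ch Y}
    (hz : D.Perp Y i z) : D.Perp X (i + D.dim X - D.dim Y) (D.push f z) := by
  refine ⟨ch0_push h f hz.1, fun w hw => ?_⟩
  have h2 : D.dim X + 1 - (i + D.dim X - D.dim Y) = D.dim Y + 1 - i := by ring
  rw [h2] at hw
  rw [h.projection.push X Y f i z hz.1 w hw]
  exact hz.2 _ (fin_pull h f hw)

lemma gen0_of_res (h : D.Formal) {X : D.Model} {i : ℤ} {z : D.Ch X} (hz : z ∈ D.ch0 X i) :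
    D.res X z ∈ D.gen0 X i := ⟨h.graded.res X i z hz.1, hz.2⟩

lemma Liftable.of_perp (h : D.Formal) {X : D.Model} {i : ℤ} {z : D.Ch X} (hz : D.Perp X i z) :
    D.Liftable X i (D.res X z) := ⟨gen0_of_res h hz.1, z, hz, rfl⟩

lemma Liftable.add (h : D.Formal) {X : D.Model} {i : ℤ} {c c' : D.Gen X} (hc : D.Liftable X i c)
    (hc' : D.Liftable X i c') : D.Liftable X i (c + c') := by
  obtain ⟨_, z, hz, rfl⟩ := hc
  obtain ⟨_, z', hz', rfl⟩ := hc'
  rw [← map_add]
  exact .of_perp h (hz.add h hz')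

lemma Liftable.smul (h : D.Formal) {X : D.Model} {i : ℤ} {c : D.Gen X} (q : ℚ)
    (hc : D.Liftable X i c) : D.Liftable X i (q • c) := by
  obtain ⟨_, z, hz, rfl⟩ := hc
  rw [← map_smul]
  exact .of_perp h (hz.smul h q)

lemma Liftable.zero (h : D.Formal) (X : D.Model) (i : ℤ) : D.Liftable X i 0 := by
  rw [← map_zero (D.res X)]
  exact .of_perp h (Perp.zero h X i)

lemma Liftable.sum (h : D.Formal) {X : D.Model} {i : ℤ} {n : ℕ} (c : Fin n → D.Gen X)
    (hc : ∀ j, D.Liftable X i (c j)) : D.Liftable X i (∑ j, c j) := by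
  induction n with
  | zero => simpa using Liftable.zero h X i
  | succ n ih =>
    rw [Fin.sum_univ_succ]
    exact (hc 0).add h (ih _ fun j => hc j.succ)

/-- Correspondences preserve the classes with orthogonal lifts. -/
theorem Liftable.act (h : D.Formal) {X Y : D.Model} {r i : ℤ} (L : List (D.Span X Y))
    (hL : ∀ s ∈ L, s.degree = r) {c : D.Gen X} (hc : D.Liftable X i c) :
    D.Liftable Y (i + r) (D.act L c) := by
  induction L with
  | nil => exact .zero h Y (i + r)
  | cons s L ih =>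
    have h1 : D.act (s :: L) c = s.q • D.genPush s.g (D.genPull s.f c) + D.act L c := by
      simp [ArithData.act]
    rw [h1]
    refine Liftable.add h (Liftable.smul h _ ?_) (ih fun t ht => hL t (List.mem_cons_of_mem _ ht))
    obtain ⟨_, z, hz, rfl⟩ := hc
    rw [← h.compatible.pull, ← h.compatible.push]
    have h2 := (hz.pull h s.f).push h s.g
    have h3 : i + D.dim Y - D.dim s.G = i + r := by
      have := hL s List.mem_cons_self
      unfold Span.degree at this
      linarith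
    rw [h3] at h2
    exact .of_perp h h2

lemma gen0_act (h : D.Formal) {X Y : D.Model} {r i : ℤ} (L : List (D.Span X Y))
    (hL : ∀ s ∈ L, s.degree = r) {c : D.Gen X} (hc : c ∈ D.gen0 X i) :
    D.act L c ∈ D.gen0 Y (i + r) := by
  induction L with
  | nil => exact Submodule.zero_mem _
  | cons s L ih =>
    have h1 : D.act (s :: L) c = s.q • D.genPush s.g (D.genPull s.f c) + D.act L c := by
      simp [ArithData.act]
    rw [h1]
    refine Submodule.add_mem _ (Submodule.smul_mem _ _ ?_)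
      (ih fun t ht => hL t (List.mem_cons_of_mem _ ht))
    have h2 := h.graded.genPush _ _ s.g i _ (h.graded.genPull _ _ s.f i c hc.1)
    have h3 : i + D.dim Y - D.dim s.G = i + r := by
      have := hL s List.mem_cons_self
      unfold Span.degree at this
      linarith
    rw [h3] at h2
    exact ⟨h2, h.compatible.push_hom _ _ _ _ (h.compatible.pull_hom _ _ _ _ hc.2)⟩

/-- If the cohomologically trivial classes of codimension `i` are generated by the images of classes
with orthogonal lifts under correspondences, then all of them have orthogonal lifts. -/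
theorem Statement.of_generated (h : D.Formal) {X : D.Model} {i : ℤ}
    (hX : ∀ c ∈ D.gen0 X i, ∃ (n : ℕ) (Y : Fin n → D.Model) (r : Fin n → ℤ)
      (L : ∀ j, List (D.Span (Y j) X)) (b : ∀ j, D.Gen (Y j)),
      (∀ j, ∀ s ∈ L j, s.degree = r j) ∧ (∀ j, D.Liftable (Y j) (i - r j) (b j)) ∧
      c = ∑ j, D.act (L j) (b j)) : D.Statement X i := by
  intro c hc
  obtain ⟨n, Y, r, L, b, h1, h2, rfl⟩ := hX c hc
  have h3 : D.Liftable X i (∑ j, D.act (L j) (b j)) := by
    refine Liftable.sum h _ fun j => ?_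
    have := (h2 j).act h (L j) (h1 j)
    rwa [sub_add_cancel] at this
  exact h3.2

/-- Direct summands. -/
theorem Statement.of_summand (h : D.Formal) {X : D.Model} {i : ℤ} {n : ℕ} (Y : Fin n → D.Model)
    (r : Fin n → ℤ) (a : ∀ j, List (D.Span X (Y j))) (b : ∀ j, List (D.Span (Y j) X))
    (ha : ∀ j, ∀ s ∈ a j, s.degree = r j) (hb : ∀ j, ∀ s ∈ b j, s.degree = -r j)
    (hab : ∀ c ∈ D.gen0 X i, ∑ j, D.act (b j) (D.act (a j) c) = c)
    (hY : ∀ j, D.Statement (Y j) (i + r j)) : D.Statement X i := by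
  refine Statement.of_generated h fun c hc =>
    ⟨n, Y, fun j => -r j, b, fun j => D.act (a j) c, hb, fun j => ?_, (hab c hc).symm⟩
  have h1 := gen0_act h (a j) (ha j) hc
  rw [sub_neg_eq_add]
  exact ⟨h1, hY j _ h1⟩

/-- Independence of the model. -/
theorem Statement.iff_of_inverse (h : D.Formal) {X X' : D.Model} {i : ℤ} (a : List (D.Span X X'))
    (b : List (D.Span X' X)) (ha : ∀ s ∈ a, s.degree = 0) (hb : ∀ s ∈ b, s.degree = 0)
    (hba : ∀ c ∈ D.gen0 X i, D.act b (D.act a c) = c)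
    (hab : ∀ c ∈ D.gen0 X' i, D.act a (D.act b c) = c) : D.Statement X i ↔ D.Statement X' i := by
  constructor
  · intro hX
    refine Statement.of_summand h (n := 1) (fun _ => X) (fun _ => 0) (fun _ => b) (fun _ => a)
      (fun _ => hb) (fun _ s hs => by rw [ha s hs, neg_zero]) (fun c hc => ?_)
      (fun _ => by rwa [add_zero])
    simpa using hab c hc
  · intro hX
    refine Statement.of_summand h (n := 1) (fun _ => X') (fun _ => 0) (fun _ => a) (fun _ => b)
      (fun _ => ha) (fun _ s hs => by rw [hb s hs, neg_zero]) (fun c hc => ?_)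
      (fun _ => by rwa [add_zero])
    simpa using hba c hc

end ArithData

end Pool.Agent.TH90.BB
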