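import Mathlib.LinearAlgebra.Quotient.Basic
import Mathlib.Algebra.Module.Rat
import Mathlib.Data.Real.Basic
import Mathlib.Tactic

/-!
# Chow groups of regular models and the Gillet–Soulé pairing: the data
-/

universe u v w

namespace Pool.Agent.TH90.BB

set_option linter.checkUnivs false

/-- The data of the regular schemes which are proper and flat over `O_E` (with generic fibre of pure
dimension `dim`), of their Chow groups `Ch` and of the Chow groups `Gen` of the generic fibres (with
rational coefficients, all codimensions together), of the restriction `res` to the generic fibre, of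
the classes `hom` on the generic fibre with trivial cohomology class, of the Gillet–Soulé pairing
`gs`, and of the pull-back and the push-forward of the morphisms `Mor` over `O_E`. -/
structure ArithData where
  Model : Type u
  dim : Model → ℤ
  Ch : Model → Type v
  [chGrp : ∀ X, AddCommGroup (Ch X)]
  [chMod : ∀ X, Module ℚ (Ch X)]
  Gen : Model → Type v
  [genGrp : ∀ X, AddCommGroup (Gen X)]
  [genMod : ∀ X, Module ℚ (Gen X)]
  codim : ∀ X : Model, ℤ → Submodule ℚ (Ch X)
  genCodim : ∀ X : Model, ℤ → Submodule ℚ (Gen X)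
  hom : ∀ X : Model, Submodule ℚ (Gen X)
  res : ∀ X : Model, Ch X →ₗ[ℚ] Gen X
  gs : ∀ X : Model, Ch X → Ch X → ℝ
  Mor : Model → Model → Type w
  pull : ∀ {X Y : Model}, Mor Y X → Ch X →ₗ[ℚ] Ch Y
  push : ∀ {X Y : Model}, Mor Y X → Ch Y →ₗ[ℚ] Ch X
  genPull : ∀ {X Y : Model}, Mor Y X → Gen X →ₗ[ℚ] Gen Y
  genPush : ∀ {X Y : Model}, Mor Y X → Gen Y →ₗ[ℚ] Gen X

attribute [instance] ArithData.chGrp ArithData.chMod ArithData.genGrp ArithData.genMod

namespace ArithData

variable (D : ArithData.{u, v, w})

/-- `Ch^i(X)_{ℚ,0}`: the cohomologically trivial classes of codimension `i` on the generic fibre. -/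
def gen0 (X : D.Model) (i : ℤ) : Submodule ℚ (D.Gen X) := D.genCodim X i ⊓ D.hom X

/-- `Ch^i(𝒳)_{ℚ,0}`: the classes of codimension `i` with cohomologically trivial restriction to the
generic fibre. -/
def ch0 (X : D.Model) (i : ℤ) : Submodule ℚ (D.Ch X) := D.codim X i ⊓ (D.hom X).comap (D.res X)

/-- `Ch^i_fin(𝒳)_ℚ`: the classes of codimension `i` which restrict to zero on the generic fibre. -/
def fin (X : D.Model) (i : ℤ) : Submodule ℚ (D.Ch X) := D.codim X i ⊓ LinearMap.ker (D.res X)

/-- `z` is a class in `Ch^i(𝒳)_{ℚ,0}` which is orthogonal to `Ch^{d+1-i}_fin(𝒳)_ℚ`. -/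
def Perp (X : D.Model) (i : ℤ) (z : D.Ch X) : Prop :=
  z ∈ D.ch0 X i ∧ ∀ w ∈ D.fin X (D.dim X + 1 - i), D.gs X z w = 0

/-- `c` is a cohomologically trivial class of codimension `i` on the generic fibre of `𝒳` which has
a lift to `𝒳` that is orthogonal to the fibral cycles of complementary codimension. -/
def Liftable (X : D.Model) (i : ℤ) (c : D.Gen X) : Prop :=
  c ∈ D.gen0 X i ∧ ∃ z, D.Perp X i z ∧ D.res X z = c

/-- The assertion of the problem for the model `𝒳` and the codimension `i`. -/
def Statement (X : D.Model) (i : ℤ) : Prop := ∀ c ∈ D.gen0 X i, ∃ z, D.Perp X i z ∧ D.res X z = c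

/-- A span: a regular proper flat scheme `G` with morphisms `f : G → X` and `g : G → Y`, and a
rational coefficient `q`. -/
structure Span (X Y : D.Model) where
  G : D.Model
  f : D.Mor G X
  g : D.Mor G Y
  q : ℚ

variable {D}

/-- The degree of the correspondence given by a span: it maps classes of codimension `i` to classes
of codimension `i + degree`. -/
def Span.degree {X Y : D.Model} (s : D.Span X Y) : ℤ := D.dim Y - D.dim s.G

variable (D)

/-- The action `∑ q • g_* f^*` of a linear combination of spans on the Chow groups of the generic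
fibres. -/
def act {X Y : D.Model} (L : List (D.Span X Y)) (c : D.Gen X) : D.Gen Y :=
  (L.map fun s => s.q • D.genPush s.g (D.genPull s.f c)).sum

/-- Pull-back and push-forward respect the codimension (shifted by the relative dimension). -/
structure Graded : Prop where
  pull : ∀ (X Y : D.Model) (f : D.Mor Y X) (i : ℤ), ∀ z ∈ D.codim X i, D.pull f z ∈ D.codim Y i
  push : ∀ (X Y : D.Model) (f : D.Mor Y X) (i : ℤ), ∀ z ∈ D.codim Y i,
    D.push f z ∈ D.codim X (i + D.dim X - D.dim Y)
  res : ∀ (X : D.Model) (i : ℤ), ∀ z ∈ D.codim X i, D.res X z ∈ D.genCodim X i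
  genPull : ∀ (X Y : D.Model) (f : D.Mor Y X) (i : ℤ), ∀ c ∈ D.genCodim X i,
    D.genPull f c ∈ D.genCodim Y i
  genPush : ∀ (X Y : D.Model) (f : D.Mor Y X) (i : ℤ), ∀ c ∈ D.genCodim Y i,
    D.genPush f c ∈ D.genCodim X (i + D.dim X - D.dim Y)

/-- Pull-back and push-forward are compatible with the restriction to the generic fibre, and on the
generic fibre they respect cohomological triviality. -/
structure Compatible : Prop where
  pull : ∀ (X Y : D.Model) (f : D.Mor Y X) (z : D.Ch X),
    D.res Y (D.pull f z) = D.genPull f (D.res X z)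
  push : ∀ (X Y : D.Model) (f : D.Mor Y X) (z : D.Ch Y),
    D.res X (D.push f z) = D.genPush f (D.res Y z)
  pull_hom : ∀ (X Y : D.Model) (f : D.Mor Y X), ∀ c ∈ D.hom X, D.genPull f c ∈ D.hom Y
  push_hom : ∀ (X Y : D.Model) (f : D.Mor Y X), ∀ c ∈ D.hom Y, D.genPush f c ∈ D.hom X

/-- The pairing of a class in `Ch^i(𝒳)_{ℚ,0}` and a fibral class of codimension `d + 1 - i` is
additive and homogeneous in the first variable. -/
structure Linear : Prop where
  add : ∀ (X : D.Model) (i : ℤ), ∀ z ∈ D.ch0 X i, ∀ z' ∈ D.ch0 X i,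
    ∀ w ∈ D.fin X (D.dim X + 1 - i), D.gs X (z + z') w = D.gs X z w + D.gs X z' w
  smul : ∀ (X : D.Model) (i : ℤ) (q : ℚ), ∀ z ∈ D.ch0 X i, ∀ w ∈ D.fin X (D.dim X + 1 - i),
    D.gs X (q • z) w = (q : ℝ) * D.gs X z w

/-- The projection formula for the pairing with fibral classes. -/
structure Projection : Prop where
  pull : ∀ (X Y : D.Model) (f : D.Mor Y X) (i : ℤ), ∀ z ∈ D.ch0 X i,
    ∀ w ∈ D.fin Y (D.dim Y + 1 - i), D.gs Y (D.pull f z) w = D.gs X z (D.push f w)
  push : ∀ (X Y : D.Model) (f : D.Mor Y X) (i : ℤ), ∀ z ∈ D.ch0 Y i,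
    ∀ w ∈ D.fin X (D.dim Y + 1 - i), D.gs X (D.push f z) w = D.gs Y z (D.pull f w)

/-- The formal properties of the Chow groups of regular proper flat `O_E`-schemes and of the
pairing of Gillet and Soulé which are used. -/
structure Formal : Prop where
  graded : D.Graded
  compatible : D.Compatible
  linear : D.Linear
  projection : D.Projection

end ArithData

end Pool.Agent.TH90.BB
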