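import Pool.Agent.TH90.BB.Corr

/-!
# Extensions of cycles with homologically trivial restrictions to the closed fibres
-/

universe u v w t

namespace Pool.Agent.TH90.BB

set_option linter.checkUnivs false

namespace ArithData

variable (D : ArithData.{u, v, w})

/-- The closed fibres: for each model `𝒳` and each prime `s` the classes `fib` of cycles with support
in the fibre over `s`, and the classes `triv` whose restriction to the fibre over `s` is
homologically trivial. -/
structure Fibres where
  Place : Type t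
  fib : ∀ X : D.Model, Place → Submodule ℚ (D.Ch X)
  triv : ∀ X : D.Model, Place → Submodule ℚ (D.Ch X)

variable {D}

namespace Fibres

variable (F : Fibres.{u, v, w, t} D)

/-- `c` is a cohomologically trivial class of codimension `i` on the generic fibre which extends to
a class on `𝒳` with homologically trivial restrictions to all closed fibres. -/
def Extends (X : D.Model) (i : ℤ) (c : D.Gen X) : Prop :=
  c ∈ D.gen0 X i ∧ ∃ z ∈ D.codim X i, (∀ s, z ∈ F.triv X s) ∧ D.res X z = c

/-- The assertion of the problem for the model `𝒳` and the codimension `i` (the inclusion which is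
not clear). -/
def AllExtend (X : D.Model) (i : ℤ) : Prop := ∀ c ∈ D.gen0 X i, F.Extends X i c

/-- `c` extends to a class with homologically trivial restriction to the fibre over `s`. -/
def ExtendsAt (X : D.Model) (i : ℤ) (s : F.Place) (c : D.Gen X) : Prop :=
  ∃ z ∈ D.codim X i, z ∈ F.triv X s ∧ D.res X z = c

/-- Pull-back and push-forward preserve the classes with homologically trivial restriction to the
fibre over `s`. -/
structure Stable : Prop where
  pull : ∀ (X Y : D.Model) (f : D.Mor Y X) (s : F.Place), ∀ z ∈ F.triv X s,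
    D.pull f z ∈ F.triv Y s
  push : ∀ (X Y : D.Model) (f : D.Mor Y X) (s : F.Place), ∀ z ∈ F.triv Y s,
    D.push f z ∈ F.triv X s

/-- Localisation; classes supported in one fibre have trivial restriction to the others, and
cohomologically trivial classes have homologically trivial restriction to almost all (smooth)
fibres. -/
structure Local (X : D.Model) (i : ℤ) : Prop where
  restrict : ∀ s, ∀ z ∈ F.fib X s, D.res X z = 0
  sum : D.fin X i ≤ ⨆ s, F.fib X s ⊓ D.codim X i
  surjective : ∀ c ∈ D.genCodim X i, ∃ z ∈ D.codim X i, D.res X z = c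
  disjoint : ∀ s s', s ≠ s' → F.fib X s ≤ F.triv X s'
  almost : ∀ z ∈ D.ch0 X i, {s : F.Place | z ∉ F.triv X s}.Finite

variable {F}

lemma Extends.add {X : D.Model} {i : ℤ} {c c' : D.Gen X} (hc : F.Extends X i c)
    (hc' : F.Extends X i c') : F.Extends X i (c + c') := by
  obtain ⟨h0, z, hz, ht, rfl⟩ := hc
  obtain ⟨h0', z', hz', ht', rfl⟩ := hc'
  exact ⟨Submodule.add_mem _ h0 h0', z + z', Submodule.add_mem _ hz hz',
    fun s => Submodule.add_mem _ (ht s) (ht' s), map_add _ _ _⟩

lemma Extends.smul {X : D.Model} {i : ℤ} {c : D.Gen X} (q : ℚ) (hc : F.Extends X i c) :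
    F.Extends X i (q • c) := by
  obtain ⟨h0, z, hz, ht, rfl⟩ := hc
  exact ⟨Submodule.smul_mem _ q h0, q • z, Submodule.smul_mem _ q hz,
    fun s => Submodule.smul_mem _ q (ht s), map_smul _ _ _⟩

lemma Extends.zero (X : D.Model) (i : ℤ) : F.Extends X i 0 :=
  ⟨Submodule.zero_mem _, 0, Submodule.zero_mem _, fun _ => Submodule.zero_mem _, map_zero _⟩

lemma Extends.sum {X : D.Model} {i : ℤ} {n : ℕ} (c : Fin n → D.Gen X)
    (hc : ∀ j, F.Extends X i (c j)) : F.Extends X i (∑ j, c j) := by
  induction n with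
  | zero => simpa using Extends.zero X i
  | succ n ih =>
    rw [Fin.sum_univ_succ]
    exact (hc 0).add (ih _ fun j => hc j.succ)

/-- Correspondences preserve the classes which extend. -/
theorem Extends.act (hg : D.Graded) (hc' : D.Compatible) (hF : F.Stable) {X Y : D.Model} {r i : ℤ}
    (L : List (D.Span X Y)) (hL : ∀ s ∈ L, s.degree = r) {c : D.Gen X} (hc : F.Extends X i c) :
    F.Extends Y (i + r) (D.act L c) := by
  induction L with
  | nil => exact Extends.zero Y (i + r)
  | cons s L ih =>
    have h1 : D.act (s :: L) c = s.q • D.genPush s.g (D.genPull s.f c) + D.act L c := by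
      simp [ArithData.act]
    rw [h1]
    refine Extends.add (Extends.smul _ ?_) (ih fun t ht => hL t (List.mem_cons_of_mem _ ht))
    obtain ⟨h0, z, hz, ht, rfl⟩ := hc
    have h3 : i + D.dim Y - D.dim s.G = i + r := by
      have := hL s List.mem_cons_self
      unfold Span.degree at this
      linarith
    refine ⟨⟨?_, ?_⟩, D.push s.g (D.pull s.f z), ?_, fun p => ?_, ?_⟩
    · have h2 := hg.genPush _ _ s.g i _ (hg.genPull _ _ s.f i _ h0.1)
      rwa [h3] at h2
    · exact hc'.push_hom _ _ _ _ (hc'.pull_hom _ _ _ _ h0.2)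
    · have h2 := hg.push _ _ s.g i _ (hg.pull _ _ s.f i _ hz)
      rwa [h3] at h2
    · exact hF.push _ _ _ _ _ (hF.pull _ _ _ _ _ (ht p))
    · rw [hc'.push, hc'.pull]

/-- If all cohomologically trivial classes are generated by images of classes which extend, they
extend. -/
theorem AllExtend.of_generated (hg : D.Graded) (hc' : D.Compatible) (hF : F.Stable)
    {X : D.Model} {i : ℤ}
    (hX : ∀ c ∈ D.gen0 X i, ∃ (n : ℕ) (Y : Fin n → D.Model) (r : Fin n → ℤ)
      (L : ∀ j, List (D.Span (Y j) X)) (b : ∀ j, D.Gen (Y j)),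
      (∀ j, ∀ s ∈ L j, s.degree = r j) ∧ (∀ j, F.Extends (Y j) (i - r j) (b j)) ∧
      c = ∑ j, D.act (L j) (b j)) : F.AllExtend X i := by
  intro c hc
  obtain ⟨n, Y, r, L, b, h1, h2, rfl⟩ := hX c hc
  refine Extends.sum _ fun j => ?_
  have := (h2 j).act hg hc' hF (L j) (h1 j)
  rwa [sub_add_cancel] at this

lemma gen0_act' (hg : D.Graded) (hc' : D.Compatible) {X Y : D.Model} {r i : ℤ}
    (L : List (D.Span X Y)) (hL : ∀ s ∈ L, s.degree = r) {c : D.Gen X} (hc : c ∈ D.gen0 X i) :
    D.act L c ∈ D.gen0 Y (i + r) := by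
  induction L with
  | nil => exact Submodule.zero_mem _
  | cons s L ih =>
    have h1 : D.act (s :: L) c = s.q • D.genPush s.g (D.genPull s.f c) + D.act L c := by
      simp [ArithData.act]
    rw [h1]
    refine Submodule.add_mem _ (Submodule.smul_mem _ _ ?_)
      (ih fun t ht => hL t (List.mem_cons_of_mem _ ht))
    have h2 := hg.genPush _ _ s.g i _ (hg.genPull _ _ s.f i c hc.1)
    have h3 : i + D.dim Y - D.dim s.G = i + r := by
      have := hL s List.mem_cons_self
      unfold Span.degree at this
      linarith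
    rw [h3] at h2
    exact ⟨h2, hc'.push_hom _ _ _ _ (hc'.pull_hom _ _ _ _ hc.2)⟩

/-- Direct summands. -/
theorem AllExtend.of_summand (hg : D.Graded) (hc' : D.Compatible) (hF : F.Stable)
    {X : D.Model} {i : ℤ} {n : ℕ} (Y : Fin n → D.Model)
    (r : Fin n → ℤ) (a : ∀ j, List (D.Span X (Y j))) (b : ∀ j, List (D.Span (Y j) X))
    (ha : ∀ j, ∀ s ∈ a j, s.degree = r j) (hb : ∀ j, ∀ s ∈ b j, s.degree = -r j)
    (hab : ∀ c ∈ D.gen0 X i, ∑ j, D.act (b j) (D.act (a j) c) = c)
    (hY : ∀ j, F.AllExtend (Y j) (i + r j)) : F.AllExtend X i := by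
  refine AllExtend.of_generated hg hc' hF fun c hc =>
    ⟨n, Y, fun j => -r j, b, fun j => D.act (a j) c, hb, fun j => ?_, (hab c hc).symm⟩
  rw [sub_neg_eq_add]
  exact hY j _ (gen0_act' hg hc' (a j) (ha j) hc)

/-- Independence of the model. -/
theorem AllExtend.iff_of_inverse (hg : D.Graded) (hc' : D.Compatible) (hF : F.Stable)
    {X X' : D.Model} {i : ℤ} (a : List (D.Span X X'))
    (b : List (D.Span X' X)) (ha : ∀ s ∈ a, s.degree = 0) (hb : ∀ s ∈ b, s.degree = 0)
    (hba : ∀ c ∈ D.gen0 X i, D.act b (D.act a c) = c)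
    (hab : ∀ c ∈ D.gen0 X' i, D.act a (D.act b c) = c) : F.AllExtend X i ↔ F.AllExtend X' i := by
  constructor
  · intro hX
    refine AllExtend.of_summand hg hc' hF (n := 1) (fun _ => X) (fun _ => 0) (fun _ => b)
      (fun _ => a) (fun _ => hb) (fun _ s hs => by rw [ha s hs, neg_zero]) (fun c hc => ?_)
      (fun _ => by rwa [add_zero])
    simpa using hab c hc
  · intro hX
    refine AllExtend.of_summand hg hc' hF (n := 1) (fun _ => X') (fun _ => 0) (fun _ => a)
      (fun _ => b) (fun _ => ha) (fun _ s hs => by rw [hb s hs, neg_zero]) (fun c hc => ?_)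
      (fun _ => by rwa [add_zero])
    simpa using hba c hc

/-- The component of a fibral class over `s`. -/
lemma component {X : D.Model} {i : ℤ} (h : F.Local X i) (s : F.Place) {g : D.Ch X}
    (hg : g ∈ D.fin X i) : ∃ f ∈ F.fib X s ⊓ D.codim X i, g - f ∈ F.triv X s := by
  refine Submodule.iSup_induction (fun s => F.fib X s ⊓ D.codim X i)
    (motive := fun g => ∃ f ∈ F.fib X s ⊓ D.codim X i, g - f ∈ F.triv X s) (h.sum hg) ?_ ?_ ?_
  · intro s' g hg
    by_cases hs : s' = s
    · subst hs
      exact ⟨g, hg, by rw [sub_self]; exact Submodule.zero_mem _⟩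
    · exact ⟨0, Submodule.zero_mem _, by rw [sub_zero]; exact h.disjoint s' s hs hg.1⟩
  · exact ⟨0, Submodule.zero_mem _, by rw [sub_zero]; exact Submodule.zero_mem _⟩
  · rintro g g' ⟨f, hf, h1⟩ ⟨f', hf', h2⟩
    exact ⟨f + f', Submodule.add_mem _ hf hf', by
      rw [add_sub_add_comm]
      exact Submodule.add_mem _ h1 h2⟩

/-- The existence of an extension is a local question. -/
theorem extends_iff {X : D.Model} {i : ℤ} (h : F.Local X i) {c : D.Gen X} (hc : c ∈ D.gen0 X i) :
    F.Extends X i c ↔ ∀ s, F.ExtendsAt X i s c := by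
  classical
  constructor
  · rintro ⟨_, z, hz, ht, hr⟩ s
    exact ⟨z, hz, ht s, hr⟩
  · intro hs
    obtain ⟨z0, hz0, hr⟩ := h.surjective c hc.1
    have hz0' : z0 ∈ D.ch0 X i := ⟨hz0, by
      change D.res X z0 ∈ D.hom X
      rw [hr]
      exact hc.2⟩
    have key : ∀ s, ∃ f ∈ F.fib X s ⊓ D.codim X i, z0 + f ∈ F.triv X s := by
      intro s
      obtain ⟨z, hz, ht, hzr⟩ := hs s
      obtain ⟨f, hf, hfw⟩ := component h s (g := z - z0) ⟨Submodule.sub_mem _ hz hz0, by
        change D.res X (z - z0) = 0
        rw [map_sub, hzr, hr, sub_self]⟩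
      refine ⟨f, hf, ?_⟩
      have e1 : z0 + f = z - (z - z0 - f) := by abel
      rw [e1]
      exact Submodule.sub_mem _ ht hfw
    choose f hf hft using key
    let S := (h.almost z0 hz0').toFinset
    refine ⟨hc, z0 + ∑ s ∈ S, f s,
      Submodule.add_mem _ hz0 (Submodule.sum_mem _ fun s _ => (hf s).2), fun s => ?_, ?_⟩
    · by_cases hS : s ∈ S
      · rw [← Finset.add_sum_erase S f hS, ← add_assoc]
        exact Submodule.add_mem _ (hft s) (Submodule.sum_mem _ fun b hb =>
          h.disjoint b s (Finset.ne_of_mem_erase hb) (hf b).1)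
      · refine Submodule.add_mem _ ?_ (Submodule.sum_mem _ fun b hb =>
          h.disjoint b s (by rintro rfl; exact hS hb) (hf b).1)
        by_contra hne
        exact hS ((h.almost z0 hz0').mem_toFinset.mpr hne)
    · rw [map_add, hr, map_sum, Finset.sum_eq_zero fun s _ => h.restrict s _ (hf s).1, add_zero]

end Fibres

end ArithData

end Pool.Agent.TH90.BB
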