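import Pool.Agent.TH90.BB.Defs
import Mathlib.LinearAlgebra.Dual.Lemmas

/-!
# The obstruction of a class to have an orthogonal lift is local
-/

universe u v w t

namespace Pool.Agent.TH90.BB

set_option linter.checkUnivs false

namespace ArithData

variable {D : ArithData.{u, v, w}}

/-- The fibres of the model `𝒳`: the closed points `Place` of `Spec O_E`, the classes `fib s` of the
cycles with support in the fibre over `s`, the degree `deg s z w` of the intersection of `z` with
such a class `w`, and the logarithm `lg s` of the number of elements of the residue field; and the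
base change to the completion at `s`: the Chow groups `Cpl s` of `𝒳 ⊗ O_s` and `GenC s` of
`X ⊗ E_s`, the maps `loc`, `locGen` of base change, the restriction `resC` to the generic fibre, and
the degree `degC s y w` of the intersection of a class `y` on `𝒳 ⊗ O_s` with a fibral class `w`
(the special fibre of `𝒳 ⊗ O_s` is the fibre of `𝒳` over `s`; it is only used if the restriction of
`y` to the generic fibre is the base change of a cohomologically trivial class on `X`). -/
structure FibreData (X : D.Model) where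
  Place : Type t
  fib : Place → Submodule ℚ (D.Ch X)
  deg : Place → D.Ch X → D.Ch X → ℚ
  lg : Place → ℝ
  Cpl : Place → Type v
  [cplGrp : ∀ s, AddCommGroup (Cpl s)]
  [cplMod : ∀ s, Module ℚ (Cpl s)]
  GenC : Place → Type v
  [genCGrp : ∀ s, AddCommGroup (GenC s)]
  [genCMod : ∀ s, Module ℚ (GenC s)]
  codimC : ∀ s, ℤ → Submodule ℚ (Cpl s)
  loc : ∀ s, D.Ch X →ₗ[ℚ] Cpl s
  locGen : ∀ s, D.Gen X →ₗ[ℚ] GenC s
  resC : ∀ s, Cpl s →ₗ[ℚ] GenC s
  degC : ∀ s, Cpl s → D.Ch X → ℚ

attribute [instance] FibreData.cplGrp FibreData.cplMod FibreData.genCGrp FibreData.genCMod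

namespace FibreData

variable {X : D.Model} (F : FibreData.{u, v, w, t} X)

/-- The classes of codimension `i` with support in the fibre over `s`. -/
def fibi (s : F.Place) (i : ℤ) : Submodule ℚ (D.Ch X) := F.fib s ⊓ D.codim X i

/-- The complementary codimension `d + 1 - i`. -/
def co (X : D.Model) (i : ℤ) : ℤ := D.dim X + 1 - i

/-- Each class which vanishes on the generic fibre is a sum of classes supported in fibres, and
the restriction to the generic fibre is surjective and respects the codimension. -/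
structure Localisation (i : ℤ) : Prop where
  restrict : ∀ (s : F.Place), ∀ w ∈ F.fib s, D.res X w = 0
  sum : D.fin X i ≤ ⨆ s, F.fibi s i
  sum_co : D.fin X (co X i) ≤ ⨆ s, F.fibi s (co X i)
  surjective : ∀ c ∈ D.genCodim X i, ∃ z ∈ D.codim X i, D.res X z = c
  codim : ∀ z ∈ D.codim X i, D.res X z ∈ D.genCodim X i

/-- The pairing with a class supported in the fibre over `s` is the degree of the intersection times
the logarithm of the number of elements of the residue field; it is linear in the fibral class, and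
classes supported in different fibres have pairing zero. -/
structure Degrees (i : ℤ) : Prop where
  deg : ∀ (s : F.Place), ∀ z ∈ D.ch0 X i, ∀ w ∈ F.fibi s (co X i),
    D.gs X z w = (F.deg s z w : ℝ) * F.lg s
  pos : ∀ s, 0 < F.lg s
  add : ∀ z ∈ D.ch0 X i, ∀ w ∈ D.fin X (co X i), ∀ w' ∈ D.fin X (co X i),
    D.gs X z (w + w') = D.gs X z w + D.gs X z w'
  smul : ∀ (q : ℚ), ∀ z ∈ D.ch0 X i, ∀ w ∈ D.fin X (co X i),
    D.gs X z (q • w) = (q : ℝ) * D.gs X z w
  disjoint : ∀ (s s' : F.Place), s ≠ s' → ∀ z ∈ F.fibi s i, ∀ w ∈ F.fibi s' (co X i),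
    D.gs X z w = 0

/-- A cohomologically trivial class is orthogonal to the cycles in almost all fibres (the smooth
ones), and the fibral classes over `s` modulo numerical equivalence (with respect to the fibral
classes over `s`) form a finite-dimensional space. -/
structure Finiteness (i : ℤ) : Prop where
  almost : ∀ z ∈ D.ch0 X i, {s : F.Place | ∃ w ∈ F.fibi s (co X i), D.gs X z w ≠ 0}.Finite
  finite : ∀ s : F.Place, ∃ (n : ℕ) (f : Fin n → D.Ch X), (∀ k, f k ∈ F.fibi s i) ∧
    ∀ g ∈ F.fibi s i, ∃ q : Fin n → ℚ, ∀ w ∈ F.fibi s (co X i),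
      D.gs X g w = ∑ k, (q k : ℝ) * D.gs X (f k) w

/-- Compatibility of the base change to the completion at `s` with restriction to the generic fibre
and with the degree of intersections, and localisation on `𝒳 ⊗ O_s`. -/
structure Completion (i : ℤ) : Prop where
  codim : ∀ (s : F.Place), ∀ z ∈ D.codim X i, F.loc s z ∈ F.codimC s i
  res : ∀ (s : F.Place) (z : D.Ch X), F.resC s (F.loc s z) = F.locGen s (D.res X z)
  exact : ∀ (s : F.Place), ∀ y ∈ F.codimC s i, F.resC s y = 0 → ∃ f ∈ F.fibi s i, F.loc s f = y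
  deg : ∀ (s : F.Place), ∀ z ∈ D.ch0 X i, ∀ w ∈ F.fibi s (co X i),
    F.degC s (F.loc s z) w = F.deg s z w

/-- The facts on the fibres which are used. -/
structure Facts (i : ℤ) : Prop where
  linear : D.Linear
  localisation : F.Localisation i
  degrees : F.Degrees i
  finiteness : F.Finiteness i
  completion : F.Completion i

/-- `c` has a lift which is orthogonal to the cycles in the fibre over `s`. -/
def LiftableAt (i : ℤ) (s : F.Place) (c : D.Gen X) : Prop :=
  ∃ z ∈ D.ch0 X i, D.res X z = c ∧ ∀ w ∈ F.fibi s (co X i), D.gs X z w = 0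

/-- The base change of `c` to the completion at `s` has a lift to `𝒳 ⊗ O_s` which is orthogonal to
the cycles in the special fibre. -/
def LiftableOver (i : ℤ) (s : F.Place) (c : D.Gen X) : Prop :=
  ∃ y ∈ F.codimC s i, F.resC s y = F.locGen s c ∧ ∀ w ∈ F.fibi s (co X i), F.degC s y w = 0

/-- `w` is a cycle in the fibre over `s`, of codimension `d + 1 - i`, which is orthogonal to all
cycles of codimension `i` in this fibre. -/
def Radical (i : ℤ) (s : F.Place) (w : D.Ch X) : Prop :=
  w ∈ F.fibi s (co X i) ∧ ∀ f ∈ F.fibi s i, D.gs X f w = 0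

section

variable {F} {i : ℤ}

lemma mem_ch0' {z : D.Ch X} : z ∈ D.ch0 X i ↔ z ∈ D.codim X i ∧ D.res X z ∈ D.hom X := Iff.rfl

lemma fibi_le_fin (h : F.Localisation i) (s : F.Place) (j : ℤ) : F.fibi s j ≤ D.fin X j :=
  fun _ hw => ⟨hw.2, h.restrict s _ hw.1⟩

lemma fin_le_ch0 (j : ℤ) : D.fin X j ≤ D.ch0 X j := by
  intro w hw
  refine ⟨hw.1, ?_⟩
  have : D.res X w = 0 := hw.2
  change D.res X w ∈ D.hom X
  rw [this]
  exact Submodule.zero_mem _

lemma gs_zero (h : D.Linear) {w : D.Ch X} (hw : w ∈ D.fin X (co X i)) : D.gs X 0 w = 0 := by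
  have := h.smul X i 0 0 (Submodule.zero_mem _) w hw
  simpa using this

lemma gs_sub (h : D.Linear) {z z' w : D.Ch X} (hz : z ∈ D.ch0 X i) (hz' : z' ∈ D.ch0 X i)
    (hw : w ∈ D.fin X (co X i)) : D.gs X (z - z') w = D.gs X z w - D.gs X z' w := by
  have e1 : z - z' = z + (-1 : ℚ) • z' := by rw [neg_one_smul, sub_eq_add_neg]
  rw [e1, h.add X i z hz _ (Submodule.smul_mem _ _ hz') w hw, h.smul X i (-1) z' hz' w hw]
  push_cast
  ring

lemma gs_sum (h : D.Linear) {ι : Type*} (S : Finset ι) (f : ι → D.Ch X)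
    (hf : ∀ a, f a ∈ D.ch0 X i) {w : D.Ch X} (hw : w ∈ D.fin X (co X i)) :
    D.gs X (∑ a ∈ S, f a) w = ∑ a ∈ S, D.gs X (f a) w := by
  classical
  induction S using Finset.induction_on with
  | empty => simpa using gs_zero h hw
  | insert a S ha ih =>
    rw [Finset.sum_insert ha, Finset.sum_insert ha,
      h.add X i _ (hf a) _ (Submodule.sum_mem _ fun b _ => hf b) w hw, ih]

/-- The component of a fibral class over `s`. -/
lemma component (h : F.Facts i) (s : F.Place) {g : D.Ch X} (hg : g ∈ D.fin X i) :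
    ∃ f ∈ F.fibi s i, ∀ w ∈ F.fibi s (co X i), D.gs X g w = D.gs X f w := by
  have hle := fibi_le_fin h.localisation
  refine Submodule.iSup_induction (fun s => F.fibi s i)
    (motive := fun g => ∃ f ∈ F.fibi s i, ∀ w ∈ F.fibi s (co X i), D.gs X g w = D.gs X f w ∧
      g ∈ D.ch0 X i) (h.localisation.sum hg) ?_ ?_ ?_ |>.imp fun f hf =>
        ⟨hf.1, fun w hw => (hf.2 w hw).1⟩
  · intro s' g hg
    by_cases hs : s' = s
    · subst hs
      exact ⟨g, hg, fun w _ => ⟨rfl, fin_le_ch0 i (hle s' i hg)⟩⟩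
    · refine ⟨0, Submodule.zero_mem _, fun w hw => ⟨?_, fin_le_ch0 i (hle s' i hg)⟩⟩
      rw [h.degrees.disjoint s' s hs g hg w hw, gs_zero h.linear (hle s _ hw)]
  · exact ⟨0, Submodule.zero_mem _, fun w _ => ⟨rfl, Submodule.zero_mem _⟩⟩
  · rintro g g' ⟨f, hf, h1⟩ ⟨f', hf', h2⟩
    refine ⟨f + f', Submodule.add_mem _ hf hf', fun w hw => ⟨?_, Submodule.add_mem _ (h1 w hw).2
      (h2 w hw).2⟩⟩
    rw [h.linear.add X i g (h1 w hw).2 g' (h2 w hw).2 w (hle s _ hw), (h1 w hw).1, (h2 w hw).1,
      h.linear.add X i f (fin_le_ch0 i (hle s i hf)) f' (fin_le_ch0 i (hle s i hf')) w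
        (hle s _ hw)]

lemma exists_lift (h : F.Facts i) {c : D.Gen X} (hc : c ∈ D.gen0 X i) :
    ∃ z ∈ D.ch0 X i, D.res X z = c := by
  obtain ⟨z, hz, rfl⟩ := h.localisation.surjective c hc.1
  exact ⟨z, ⟨hz, hc.2⟩, rfl⟩

lemma sub_mem_fin {z z' : D.Ch X} (hz : z ∈ D.ch0 X i) (hz' : z' ∈ D.ch0 X i)
    (h : D.res X z = D.res X z') : z - z' ∈ D.fin X i := by
  refine ⟨Submodule.sub_mem _ hz.1 hz'.1, ?_⟩
  change D.res X (z - z') = 0
  rw [map_sub, h, sub_self]

/-- Local lifts give a global lift. -/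
lemma liftable_of_at (h : F.Facts i) {c : D.Gen X} (hc : c ∈ D.gen0 X i)
    (hs : ∀ s, F.LiftableAt i s c) : D.Liftable X i c := by
  classical
  have hle := fibi_le_fin h.localisation
  obtain ⟨z0, hz0, hr⟩ := exists_lift h hc
  have key : ∀ s, ∃ f ∈ F.fibi s i, ∀ w ∈ F.fibi s (co X i), D.gs X z0 w + D.gs X f w = 0 := by
    intro s
    obtain ⟨z, hz, hzr, ho⟩ := hs s
    obtain ⟨f, hf, hfw⟩ := component h s (sub_mem_fin hz hz0 (hzr.trans hr.symm))
    refine ⟨f, hf, fun w hw => ?_⟩
    rw [← hfw w hw, gs_sub h.linear hz hz0 (hle s _ hw), ho w hw]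
    ring
  choose f hf hfw using key
  let S := (h.finiteness.almost z0 hz0).toFinset
  have hfc : ∀ s, f s ∈ D.ch0 X i := fun s => fin_le_ch0 i (hle s i (hf s))
  have hsum : ∑ s ∈ S, f s ∈ D.ch0 X i := Submodule.sum_mem _ fun s _ => hfc s
  refine ⟨hc, z0 + ∑ s ∈ S, f s, ⟨Submodule.add_mem _ hz0 hsum, ?_⟩, ?_⟩
  · have hloc : ∀ (s : F.Place), ∀ w ∈ F.fibi s (co X i), D.gs X (z0 + ∑ s ∈ S, f s) w = 0 := by
      intro s w hw
      rw [h.linear.add X i z0 hz0 _ hsum w (hle s _ hw), gs_sum h.linear S f hfc (hle s _ hw)]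
      by_cases hS : s ∈ S
      · rw [Finset.sum_eq_single_of_mem s hS (fun b _ hb =>
          h.degrees.disjoint b s hb _ (hf b) w hw)]
        exact hfw s w hw
      · rw [Finset.sum_eq_zero (fun b hb => h.degrees.disjoint b s (by
          rintro rfl
          exact hS hb) _ (hf b) w hw), add_zero]
        by_contra hne
        exact hS ((h.finiteness.almost z0 hz0).mem_toFinset.mpr ⟨w, hw, hne⟩)
    have hz : z0 + ∑ s ∈ S, f s ∈ D.ch0 X i := Submodule.add_mem _ hz0 hsum
    intro w hw
    have : w ∈ D.fin X (co X i) ∧ D.gs X (z0 + ∑ s ∈ S, f s) w = 0 := by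
      refine Submodule.iSup_induction (fun s => F.fibi s (co X i))
        (motive := fun w => w ∈ D.fin X (co X i) ∧ D.gs X (z0 + ∑ s ∈ S, f s) w = 0)
        (h.localisation.sum_co hw) ?_ ?_ ?_
      · intro s w hw
        exact ⟨hle s _ hw, hloc s w hw⟩
      · refine ⟨Submodule.zero_mem _, ?_⟩
        have := h.degrees.smul 0 _ hz 0 (Submodule.zero_mem _)
        simpa using this
      · rintro w w' ⟨h1, h2⟩ ⟨h3, h4⟩
        refine ⟨Submodule.add_mem _ h1 h3, ?_⟩
        rw [h.degrees.add _ hz w h1 w' h3, h2, h4, add_zero]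
    exact this.2
  · rw [map_add, hr]
    have : D.res X (∑ s ∈ S, f s) = 0 := by
      rw [map_sum]
      exact Finset.sum_eq_zero fun s _ => h.localisation.restrict s _ (hf s).1
    rw [this, add_zero]

lemma at_of_liftable (h : F.Facts i) {c : D.Gen X} (hc : D.Liftable X i c) (s : F.Place) :
    F.LiftableAt i s c := by
  obtain ⟨_, z, hz, hr⟩ := hc
  exact ⟨z, hz.1, hr, fun w hw => hz.2 w (fibi_le_fin h.localisation s _ hw)⟩

lemma at_iff_over (h : F.Facts i) {c : D.Gen X} (hc : c ∈ D.gen0 X i) (s : F.Place) :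
    F.LiftableAt i s c ↔ F.LiftableOver i s c := by
  have hle := fibi_le_fin h.localisation
  constructor
  · rintro ⟨z, hz, hr, ho⟩
    refine ⟨F.loc s z, h.completion.codim s z hz.1, by rw [h.completion.res, hr], fun w hw => ?_⟩
    rw [h.completion.deg s z hz w hw]
    have h1 := h.degrees.deg s z hz w hw
    rw [ho w hw] at h1
    have h2 := (mul_eq_zero.mp h1.symm).resolve_right (h.degrees.pos s).ne'
    exact_mod_cast h2
  · rintro ⟨y, hy, hr, ho⟩
    obtain ⟨z0, hz0, hr0⟩ := exists_lift h hc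
    obtain ⟨f, hf, hfy⟩ := h.completion.exact s (F.loc s z0 - y)
      (Submodule.sub_mem _ (h.completion.codim s z0 hz0.1) hy) (by
        rw [map_sub, h.completion.res, hr0, hr, sub_self])
    have hfc : f ∈ D.ch0 X i := fin_le_ch0 i (hle s i hf)
    refine ⟨z0 - f, Submodule.sub_mem _ hz0 hfc, ?_, fun w hw => ?_⟩
    · rw [map_sub, hr0, h.localisation.restrict s f hf.1, sub_zero]
    · rw [h.degrees.deg s _ (Submodule.sub_mem _ hz0 hfc) w hw,
        ← h.completion.deg s _ (Submodule.sub_mem _ hz0 hfc) w hw]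
      have : F.loc s (z0 - f) = y := by rw [map_sub, hfy, sub_sub_cancel]
      rw [this, ho w hw, Rat.cast_zero, zero_mul]

/-- A lift is orthogonal to the radical if there is a lift which is orthogonal to the fibre. -/
lemma radical_of_at (h : F.Facts i) {c : D.Gen X} {s : F.Place} (hs : F.LiftableAt i s c)
    {z : D.Ch X} (hz : z ∈ D.ch0 X i) (hr : D.res X z = c) {w : D.Ch X} (hw : F.Radical i s w) :
    D.gs X z w = 0 := by
  have hle := fibi_le_fin h.localisation
  obtain ⟨z', hz', hr', ho⟩ := hs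
  obtain ⟨f, hf, hfw⟩ := component h s (sub_mem_fin hz hz' (hr.trans hr'.symm))
  have h1 := hfw w hw.1
  rw [gs_sub h.linear hz hz' (hle s _ hw.1), ho w hw.1, hw.2 f hf, sub_zero] at h1
  exact h1

/-- A class with a lift which is orthogonal to the radical has a lift which is orthogonal to the
fibre. -/
lemma at_of_radical (h : F.Facts i) {c : D.Gen X} {s : F.Place} {z : D.Ch X}
    (hz : z ∈ D.ch0 X i) (hr : D.res X z = c) (ho : ∀ w, F.Radical i s w → D.gs X z w = 0) :
    F.LiftableAt i s c := by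
  have hle := fibi_le_fin h.localisation
  obtain ⟨n, f, hf, hfin⟩ := h.finiteness.finite s
  have hfc : ∀ k, f k ∈ D.ch0 X i := fun k => fin_le_ch0 i (hle s i (hf k))
  have lin : ∀ z ∈ D.ch0 X i, ∃ φ : F.fibi s (co X i) →ₗ[ℚ] ℚ, ∀ w, φ w = F.deg s z w := by
    intro z hz
    have hp := (h.degrees.pos s).ne'
    refine ⟨{ toFun := fun w => F.deg s z w, map_add' := ?_, map_smul' := ?_ }, fun w => rfl⟩
    · intro w w'
      have e1 := h.degrees.add z hz w (hle s _ w.2) w' (hle s _ w'.2)
      rw [h.degrees.deg s z hz w w.2, h.degrees.deg s z hz w' w'.2,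
        h.degrees.deg s z hz _ (Submodule.add_mem _ w.2 w'.2), ← add_mul] at e1
      exact_mod_cast mul_right_cancel₀ hp e1
    · intro q w
      have e1 := h.degrees.smul q z hz w (hle s _ w.2)
      rw [h.degrees.deg s z hz w w.2, h.degrees.deg s z hz _ (Submodule.smul_mem _ q w.2),
        ← mul_assoc] at e1
      have e2 := mul_right_cancel₀ hp e1
      simp only [RingHom.id_apply, smul_eq_mul]
      exact_mod_cast e2
  choose! φ hφ using lin
  have hmem : φ z ∈ Submodule.span ℚ (Set.range fun k => φ (f k)) := by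
    apply mem_span_of_iInf_ker_le_ker
    intro w hw
    rw [Submodule.mem_iInf] at hw
    have h0 : ∀ k, F.deg s (f k) w = 0 := fun k => by
      rw [← hφ (f k) (hfc k)]
      exact hw k
    have hg : ∀ k, D.gs X (f k) w = 0 := fun k => by
      rw [h.degrees.deg s _ (hfc k) w w.2, h0 k, Rat.cast_zero, zero_mul]
    have hz1 := ho w ⟨w.2, fun g hgf => by
      obtain ⟨q, hq⟩ := hfin g hgf
      rw [hq w w.2]
      exact Finset.sum_eq_zero fun k _ => by rw [hg k, mul_zero]⟩
    rw [h.degrees.deg s z hz w w.2] at hz1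
    have h2 := (mul_eq_zero.mp hz1).resolve_right (h.degrees.pos s).ne'
    rw [LinearMap.mem_ker, hφ z hz]
    exact_mod_cast h2
  obtain ⟨a, ha⟩ := (Submodule.mem_span_range_iff_exists_fun ℚ).mp hmem
  have hsc : ∀ k, a k • f k ∈ D.ch0 X i := fun k => Submodule.smul_mem _ _ (hfc k)
  have hsum : ∑ k, a k • f k ∈ D.ch0 X i := Submodule.sum_mem _ fun k _ => hsc k
  refine ⟨z - ∑ k, a k • f k, Submodule.sub_mem _ hz hsum, ?_, fun w hw => ?_⟩
  · have : D.res X (∑ k, a k • f k) = 0 := by
      rw [map_sum]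
      exact Finset.sum_eq_zero fun k _ => by
        rw [map_smul, h.localisation.restrict s _ (hf k).1, smul_zero]
    rw [map_sub, hr, this, sub_zero]
  · have e1 : (∑ k, a k • φ (f k)) ⟨w, hw⟩ = φ z ⟨w, hw⟩ := by rw [ha]
    rw [LinearMap.sum_apply] at e1
    simp only [LinearMap.smul_apply, smul_eq_mul] at e1
    rw [hφ z hz] at e1
    have e2 : ∀ k, φ (f k) ⟨w, hw⟩ = F.deg s (f k) w := fun k => hφ (f k) (hfc k) _
    simp only [e2] at e1
    rw [gs_sub h.linear hz hsum (hle s _ hw), gs_sum h.linear _ _ hsc (hle s _ hw),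
      h.degrees.deg s z hz w hw, ← e1]
    push_cast
    rw [Finset.sum_mul, sub_eq_zero]
    refine Finset.sum_congr rfl fun k _ => ?_
    rw [h.linear.smul X i (a k) _ (hfc k) w (hle s _ hw), h.degrees.deg s _ (hfc k) w hw]
    ring

end

end FibreData

end ArithData

end Pool.Agent.TH90.BB
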